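import Pool.Agent.Helper15.FC.St2

/-!
# Project FC: module EBD
-/

set_option autoImplicit false

namespace Pool.Agent.Helper42.FC

open Pool.Agent.Helper15.FC Polynomial

lemma uN_pos (F : Type) [Field F] [Fintype F] (N : ℕ) : 0 < uN F N := by
  unfold uN
  have h : (1 : ℝ) < (Fintype.card F : ℝ) := by exact_mod_cast Fintype.one_lt_card
  exact mul_pos (by linarith) (pow_pos (by linarith) N)

theorem hEBD (hTXB : StTXB) (hVAR : StVAR) : StEBD := by
  intro F _ _ k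
  obtain ⟨C, hC⟩ := hTXB F k
  refine ⟨C, fun N j r w hN hr hrN hw hper => ?_⟩
  have h1 := hVAR F N j (fun f => (dk k f : ℂ) * w f)
  have h2 := hC N (N + j) r w hN hr hrN hw hper
  have hu : 0 < uN F N := uN_pos F N
  refine (le_of_eq h1).trans ?_
  calc (uN F N)⁻¹ * ∑ ξ ∈ XiNT F N, ‖∑ f ∈ Mn F (N + j), (dk k f : ℂ) * w f *
        ξ (AdjoinRoot.mk (X ^ (N + 1) : F[X]) f.reverse)‖ ^ 2
      ≤ (uN F N)⁻¹ * (kap k r (N + j) ^ 2 *
          (qr F ^ (N + j) * phi r * uN F N * (N : ℝ) ^ C)) :=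
        mul_le_mul_of_nonneg_left h2 (inv_nonneg.mpr hu.le)
    _ = kap k r (N + j) ^ 2 * (qr F ^ (N + j) * phi r * (N : ℝ) ^ C) := by
        field_simp

end Pool.Agent.Helper42.FC
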