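import Pool.Agent.Helper15.FC.St1

/-!
# Project FC: module PRD (the product over the Frobenius orbit)
-/

set_option autoImplicit false

namespace Pool.Agent.Helper42.FC

open Pool.Agent.Helper15.FC Polynomial

section

variable {F L : Type} [Field F] [Fintype F] [Field L] [Fintype L] [Algebra F L]

omit [Fintype L] in
lemma frob_pow (t : ℕ) (x : L) :
    ((FiniteField.frobeniusAlgHom F L) ^ t) x = x ^ (Fintype.card F ^ t) := by
  rw [AlgHom.coe_pow, FiniteField.coe_frobeniusAlgHom, pow_iterate]

omit [Fintype L] in
lemma frob_inj (t : ℕ) {x y : L} (h : x ^ (Fintype.card F ^ t) = y ^ (Fintype.card F ^ t)) :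
    x = y := by
  rw [← frob_pow, ← frob_pow] at h
  exact RingHom.injective ((FiniteField.frobeniusAlgHom F L) ^ t : L →ₐ[F] L).toRingHom h

/-- `a^(q^t) = a` if and only if the degree of the minimal polynomial divides `t` -/
lemma orbit_iff (a : L) (t : ℕ) :
    a ^ (Fintype.card F ^ t) = a ↔ (minpoly F a).natDegree ∣ t := by
  have hint : IsIntegral F a := Algebra.IsIntegral.isIntegral a
  let K := IntermediateField.adjoin F {a}
  have hord : orderOf (FiniteField.frobeniusAlgHom F K) = (minpoly F a).natDegree := by
    rw [FiniteField.orderOf_frobeniusAlgHom, IntermediateField.adjoin.finrank hint]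
  rw [← hord, orderOf_dvd_iff_pow_eq_one]
  have hgen : ((IntermediateField.AdjoinSimple.gen F a : K) : L) = a := rfl
  constructor
  · intro h
    apply IntermediateField.algHom_ext_of_eq_adjoin F (S := K) (s := {a}) rfl
    intro x hx
    have hx' : x = a := hx
    subst hx'
    apply Subtype.ext
    rw [frob_pow]
    exact h
  · intro h
    have h1 := congrArg (fun f : K →ₐ[F] K => f (IntermediateField.AdjoinSimple.gen F a)) h
    simp only [frob_pow] at h1
    have h2 := congrArg (fun z : K => (z : L)) h1
    exact h2

lemma distinct (a : L) {i j : ℕ} (hi : i < (minpoly F a).natDegree)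
    (hj : j < (minpoly F a).natDegree)
    (h : a ^ (Fintype.card F ^ i) = a ^ (Fintype.card F ^ j)) : i = j := by
  wlog hij : i ≤ j generalizing i j
  · exact (this hj hi h.symm (by omega)).symm
  have h1 : a ^ (Fintype.card F ^ j) = (a ^ (Fintype.card F ^ (j - i))) ^ (Fintype.card F ^ i) := by
    rw [← pow_mul, ← pow_add]
    congr 2
    omega
  rw [h1] at h
  have h2 := frob_inj i h
  have h3 := (orbit_iff a (j - i)).mp h2.symm
  by_contra hne
  have h4 := Nat.le_of_dvd (by omega) h3
  omega

/-- the minimal polynomial over `L` -/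
lemma minpoly_prod (a : L) : (minpoly F a).map (algebraMap F L) =
    ∏ i ∈ Finset.range (minpoly F a).natDegree, (X - C (a ^ (Fintype.card F ^ i))) := by
  have hint : IsIntegral F a := Algebra.IsIntegral.isIntegral a
  have hm : (minpoly F a).Monic := minpoly.monic hint
  apply Polynomial.eq_of_monic_of_dvd_of_natDegree_le
  · exact Polynomial.monic_prod_of_monic _ _ fun i _ => Polynomial.monic_X_sub_C _
  · exact hm.map _
  · apply Finset.prod_dvd_of_coprime
    · intro i hi j hj hij
      have hi' : i < (minpoly F a).natDegree := Finset.mem_range.mp hi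
      have hj' : j < (minpoly F a).natDegree := Finset.mem_range.mp hj
      apply Polynomial.isCoprime_X_sub_C_of_isUnit_sub
      apply IsUnit.mk0
      intro h0
      exact hij (distinct a hi' hj' (sub_eq_zero.mp h0))
    · intro i _
      rw [Polynomial.dvd_iff_isRoot, Polynomial.IsRoot, Polynomial.eval_map_algebraMap]
      rw [← frob_pow, Polynomial.aeval_algHom_apply, minpoly.aeval, map_zero]
  · rw [Polynomial.natDegree_prod_of_monic _ _ fun i _ => Polynomial.monic_X_sub_C _,
      hm.natDegree_map]
    simp only [Polynomial.natDegree_X_sub_C, Finset.sum_const, Finset.card_range, smul_eq_mul,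
      mul_one, le_refl]

end

theorem hPRD : StPRD := by
  intro F L _ _ _ _ _ s a hs hcard
  have hint : IsIntegral F a := Algebra.IsIntegral.isIntegral a
  have hm : (minpoly F a).Monic := minpoly.monic hint
  set d := (minpoly F a).natDegree with hd
  have hd0 : 0 < d := minpoly.natDegree_pos hint
  have hds : d ∣ s := by
    rw [hd, ← orbit_iff, ← hcard]
    exact FiniteField.pow_card a
  obtain ⟨m, hm'⟩ := hds
  have hsd : s / d = m := by rw [hm', Nat.mul_div_cancel_left _ hd0]
  have hfa : fa (F := F) s a = minpoly F a ^ m := by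
    unfold fa
    rw [← hd, hsd]
  rw [hfa]
  refine ⟨hm.pow m, ?_, ?_⟩
  · rw [hm.natDegree_pow, ← hd, hm', mul_comm]
  · rw [Polynomial.map_pow, minpoly_prod, ← hd, hm']
    have hper : ∀ j i, a ^ (Fintype.card F ^ (d * j + i)) = a ^ (Fintype.card F ^ i) := by
      intro j i
      have h1 : a ^ (Fintype.card F ^ (d * j)) = a := (orbit_iff a (d * j)).mpr ⟨j, rfl⟩
      rw [pow_add, pow_mul, h1]
    clear hfa hsd hm' hcard hs
    induction m with
    | zero => simp
    | succ m ih =>
      rw [pow_succ, ih, Nat.mul_succ, Finset.prod_range_add]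
      congr 1
      refine Finset.prod_congr rfl fun i _ => ?_
      rw [hper]

end Pool.Agent.Helper42.FC
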