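import Pool.Agent.Helper15.FC.St4

set_option autoImplicit false

namespace Pool.Agent.Helper42.FC

open Pool.Agent.Helper15.FC Polynomial

theorem hWRH (hCMH : StCMH) (hZS : StZS) (hFAC : StFAC) (hRH : StRH) : StWRH := by
  intro F _ _ r N χ ξ hr hnt s hs
  obtain ⟨n, α, hn, hL, hPsi⟩ := hFAC F (Hk r N χ ξ) (r.natDegree + N) (hCMH F r N χ ξ hr)
    (hZS F r N χ ξ hr hnt)
  have hq : (0 : ℝ) ≤ qr F := Nat.cast_nonneg _
  have hα : ∀ i, ‖α i‖ ≤ Real.sqrt (qr F) := by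
    intro i
    by_cases h0 : α i = 0
    · rw [h0, norm_zero]; exact Real.sqrt_nonneg _
    · apply Real.le_sqrt_of_sq_le
      have h1 : (Lp (Hk r N χ ξ) (r.natDegree + N)).eval (α i)⁻¹ = 0 := by
        rw [hL, Polynomial.eval_prod]
        apply Finset.prod_eq_zero (Finset.mem_univ i)
        simp [h0]
      have h2 := hRH F r N χ ξ hr hnt _ h1
      rw [norm_inv, inv_pow] at h2
      have h3 : 0 < ‖α i‖ ^ 2 := by positivity
      rw [← div_eq_mul_inv, le_div_iff₀ h3, one_mul] at h2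
      exact h2
  rw [hPsi s hs, norm_neg]
  have h4 : ‖∑ i, α i ^ s‖ ≤ (n : ℝ) * Real.sqrt (qr F) ^ s := by
    calc ‖∑ i, α i ^ s‖ ≤ ∑ i, ‖α i ^ s‖ := norm_sum_le _ _
      _ ≤ ∑ _i : Fin n, Real.sqrt (qr F) ^ s := by
        refine Finset.sum_le_sum fun i _ => ?_
        rw [norm_pow]
        exact pow_le_pow_left₀ (norm_nonneg _) (hα i) s
      _ = (n : ℝ) * Real.sqrt (qr F) ^ s := by
        rw [Finset.sum_const, Finset.card_univ, Fintype.card_fin, nsmul_eq_mul]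
  refine h4.trans ?_
  refine mul_le_mul_of_nonneg_right ?_ (pow_nonneg (Real.sqrt_nonneg _) s)
  have h5 : ((n + 1 : ℕ) : ℝ) ≤ ((r.natDegree + N : ℕ) : ℝ) := by exact_mod_cast hn
  rw [Nat.cast_add, Nat.cast_one] at h5
  linarith

end Pool.Agent.Helper42.FC
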